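import Pool.Agent.Helper82.LPW.Lip

/-! LIPSCHITZ WINDOWS, gradient form with pointwise levels. A polynomial `P`, known to a label `V` without leak at the
window `0` of a leaf, tame at the point, with gradient at most `2 ^ (a n)` on the cell of the point, where the level
`a` depends on the sample and is known to `V`: the digits of its value at the point, up to the level `min b (1 - a)`,
are known to the label and to the window `b` of the leaf. -/

set_option autoImplicit false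

namespace Pool.Agent.Helper82.LPW

open Finset Filter Topology Pool.Agent.Helper69.RK Pool.Agent.Helper31.EC Pool.Agent.Helper31.EC.Sp
open Pool.Agent.Helper40.EL Pool.Agent.Helper89.LX Pool.Agent.Helper3.LF Pool.Agent.Helper84.MT
open Pool.Agent.Helper7.GZ Pool.Agent.Helper38.NSL

noncomputable section

variable {S T : Sp} {M : ℕ} {E : ℕ → ℕ}

/-- the derivative along a line -/
theorem hasDerivAt_seg {e : ℕ} (P : MvPolynomial (Fin e) ℝ) (x v : Fin e → ℝ) (t : ℝ) :
    HasDerivAt (fun s => MvPolynomial.eval (fun j => x j + s * v j) P)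
      (∑ i, v i * MvPolynomial.eval (fun j => x j + t * v j) (MvPolynomial.pderiv i P)) t := by
  induction P using MvPolynomial.induction_on with
  | C a =>
    simp only [MvPolynomial.eval_C, MvPolynomial.pderiv_C, map_zero, mul_zero, Finset.sum_const_zero]
    exact hasDerivAt_const _ _
  | add p q hp hq =>
    have h := hp.add hq
    have e1 : (∑ i, v i * MvPolynomial.eval (fun j => x j + t * v j) (MvPolynomial.pderiv i (p + q))) =
        (∑ i, v i * MvPolynomial.eval (fun j => x j + t * v j) (MvPolynomial.pderiv i p)) +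
          ∑ i, v i * MvPolynomial.eval (fun j => x j + t * v j) (MvPolynomial.pderiv i q) := by
      rw [← Finset.sum_add_distrib]
      refine Finset.sum_congr rfl fun i _ => ?_
      rw [map_add, map_add]
      ring
    rw [e1]
    refine h.congr_of_eventuallyEq (Eventually.of_forall fun s => ?_)
    show MvPolynomial.eval _ (p + q) = _
    rw [map_add]
    rfl
  | mul_X p i hp =>
    have h2 : HasDerivAt (fun s : ℝ => x i + s * v i) (v i) t := by
      have := ((hasDerivAt_id t).mul_const (v i)).const_add (x i)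
      simpa using this
    have h := hp.mul h2
    have e1 : (∑ k, v k * MvPolynomial.eval (fun j => x j + t * v j) (MvPolynomial.pderiv k (p * MvPolynomial.X i))) =
        (∑ k, v k * MvPolynomial.eval (fun j => x j + t * v j) (MvPolynomial.pderiv k p)) * (x i + t * v i) +
          MvPolynomial.eval (fun j => x j + t * v j) p * v i := by
      classical
      have e2 : ∀ k, v k * MvPolynomial.eval (fun j => x j + t * v j) (MvPolynomial.pderiv k (p * MvPolynomial.X i)) =
          v k * MvPolynomial.eval (fun j => x j + t * v j) (MvPolynomial.pderiv k p) * (x i + t * v i) +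
            (if k = i then MvPolynomial.eval (fun j => x j + t * v j) p * v i else 0) := by
        intro k
        rw [Derivation.leibniz, map_add, smul_eq_mul, smul_eq_mul, map_mul, map_mul, MvPolynomial.eval_X,
          MvPolynomial.pderiv_X]
        by_cases hk : k = i
        · subst hk
          rw [Pi.single_eq_same, map_one, if_pos rfl]
          ring
        · rw [Pi.single_eq_of_ne (Ne.symm hk), map_zero, if_neg hk]
          ring
      simp only [e2]
      rw [Finset.sum_add_distrib, Finset.sum_ite_eq' Finset.univ i, if_pos (Finset.mem_univ i), Finset.sum_mul]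
    rw [e1]
    refine h.congr_of_eventuallyEq (Eventually.of_forall fun s => ?_)
    show MvPolynomial.eval _ (p * MvPolynomial.X i) = _
    rw [map_mul, MvPolynomial.eval_X]
    rfl

/-- increments of a polynomial whose gradient is bounded on a ball, on the `t`-fold ball -/
theorem pol_grad (D M : ℕ) : ∃ B : ℝ, 1 ≤ B ∧ ∀ P : MvPolynomial (Fin M) ℝ, P.totalDegree ≤ D →
    ∀ (x y : Fin M → ℝ) (ρ t A : ℝ), 0 < ρ → 1 ≤ t → 0 ≤ A → (∀ i, |y i - x i| ≤ t * ρ) →
      (∀ z, (∀ i, |z i - x i| ≤ ρ) → ∀ i, |MvPolynomial.eval z (MvPolynomial.pderiv i P)| ≤ A) →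
        |MvPolynomial.eval y P - MvPolynomial.eval x P| ≤ B * t ^ (D + 1) * (ρ * A) := by
  have hB0 : (0 : ℝ) ≤ M * (Cu D * Cm M D) := by
    have h1 := Cu_one D
    have h2 := Cm_one M D
    have h3 : (0 : ℝ) ≤ M := Nat.cast_nonneg M
    positivity
  refine ⟨M * (Cu D * Cm M D) + 1, by linarith, fun P hP x y ρ t A hρ ht hA0 hxy hA => ?_⟩
  have hbd : ∀ z, (∀ i, |z i - x i| ≤ t * ρ) → ∀ i, |MvPolynomial.eval z (MvPolynomial.pderiv i P)| ≤
      Cu D * t ^ D * (Cm M D * A) := by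
    intro z hz i
    refine cell_growth D (MvPolynomial.pderiv i P) ((totalDegree_pderiv_le i P).trans hP) x ρ t A hρ ht
      (fun j => hA _ (fun i' => ?_) i) z hz
    have e1 : nodp D x ρ j i' - x i' = ρ * nod D (j i') := by
      unfold nodp
      ring
    rw [e1, abs_mul, abs_of_pos hρ, abs_of_nonneg (nod_nonneg D _)]
    exact mul_le_of_le_one_right hρ.le (nod_le D _ (Nat.le_of_lt_succ (j i').2))
  set v : Fin M → ℝ := fun i => y i - x i with hv
  have hd := fun s => hasDerivAt_seg P x v s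
  obtain ⟨c, hc, hc'⟩ := exists_hasDerivAt_eq_slope (fun s => MvPolynomial.eval (fun j => x j + s * v j) P) _
    (zero_lt_one (α := ℝ)) (fun s _ => (hd s).continuousAt.continuousWithinAt) (fun s _ => hd s)
  have e1 : (fun j => x j + (1 : ℝ) * v j) = y := by
    funext j
    rw [hv]
    ring
  have e0 : (fun j => x j + (0 : ℝ) * v j) = x := by
    funext j
    ring
  simp only [e1, e0, sub_zero, div_one] at hc'
  rw [← hc']
  refine (Finset.abs_sum_le_sum_abs _ _).trans ?_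
  have h1 : ∀ i ∈ (Finset.univ : Finset (Fin M)), |v i * MvPolynomial.eval (fun j => x j + c * v j)
      (MvPolynomial.pderiv i P)| ≤ (t * ρ) * (Cu D * t ^ D * (Cm M D * A)) := by
    intro i _
    rw [abs_mul]
    refine mul_le_mul (hxy i) (hbd _ (fun i' => ?_) i) (abs_nonneg _) (by positivity)
    have e2 : x i' + c * v i' - x i' = c * v i' := by ring
    rw [e2, abs_mul, abs_of_pos hc.1]
    exact (mul_le_of_le_one_left (abs_nonneg _) hc.2.le).trans (hxy i')
  refine (Finset.sum_le_card_nsmul _ _ _ h1).trans ?_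
  rw [nsmul_eq_mul, Finset.card_univ, Fintype.card_fin]
  have e3 : (M : ℝ) * (t * ρ * (Cu D * t ^ D * (Cm M D * A))) = M * (Cu D * Cm M D) * t ^ (D + 1) * (ρ * A) := by
    rw [pow_succ]
    ring
  rw [e3]
  have h2 : 0 ≤ t ^ (D + 1) * (ρ * A) := by positivity
  nlinarith

section
variable {Q : S.VV M} (l : Leaf S Q E)

/-- LIPW, gradient form with pointwise levels, for labels -/
theorem lipg (L : Lab S) (hL : Nul S (fun k => (L k).leak (l.win 0 k))) {D : ℕ}
    (P : ∀ k, (L k).T.Ω → MvPolynomial (Fin M) ℝ)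
    (hD : ∀ᶠ k in UF, ∀ w, (L k).T.μ w ≠ 0 → (P k w).totalDegree ≤ D)
    (a : ∀ k, (L k).T.Ω → ℝ) (ha0 : ∀ᶠ k in UF, ∀ w, (L k).T.μ w ≠ 0 → 0 ≤ a k w ∧ a k w ≤ 1)
    (hP : ∀ᶠ k in UF, ∀ w w', (L k).T.μ w ≠ 0 → (L k).T.μ w' ≠ 0 → (L k).T.Z w w' → (L k).V w w' →
      P k w = P k w' ∧ a k w = a k w') {K : ℕ → ℝ} (hK : S.Sub K)
    (h0 : Typ (S := L.sp) (fun k w => |MvPolynomial.eval (Q.v k ((L k).p.π w)) (P k w)| ≤ K k))
    (h1 : Typ (S := L.sp) (fun k w => ∀ x : Fin M → ℝ, (∀ i, |x i - Q.v k ((L k).p.π w) i| ≤ S.dl 1 k) →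
      ∀ i, |MvPolynomial.eval x (MvPolynomial.pderiv i (P k w))| ≤ K k * 2 ^ (a k w * (S.F k).n)))
    (u : ∀ k, (L k).T.Ω → ℝ) {C : ℝ} (hub : ∀ᶠ k in UF, ∀ w, (L k).T.μ w ≠ 0 → |u k w| ≤ 2 ^ (C * (S.F k).n))
    (hu : Typ (S := L.sp) (fun k w => |u k w - MvPolynomial.eval (Q.v k ((L k).p.π w)) (P k w)| ≤
      K k * 2 ^ (-((1 - a k w) * (S.F k).n)))) {b : ℝ} (hb0 : 0 ≤ b) :
    PLe (S := L.sp) (fun k => fc (F := (L k).T) (Setoid.ker fun w => ⌊u k w / 2 ^ (-(min b (1 - a k w) * (S.F k).n))⌋))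
      (fun k => fc (F := (L k).T) ((L k).V ⊓ Setoid.comap (L k).p.π (l.La k ⊓ Setoid.ker (l.Y.cellv b k)))) := by
  classical
  obtain ⟨B, hB1, hB⟩ := pol_grad D M
  obtain ⟨Kp, hKp, hpt⟩ := l.pt
  obtain ⟨K1, hK1, hT1⟩ := typ_pol l (c := 0) le_rfl one_pos L hL (D := D)
    (fun k w x => MvPolynomial.eval x (P k w)) (by
      filter_upwards [hD] with k hk w hw
      exact ⟨P k w, by
        rw [one_mul]
        exact hk w hw, rfl⟩) (κ := fun _ => 1) (S.Sub_const zero_le_one) (by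
      filter_upwards [hP] with k hk w w' x x' z v _ _ p
      rw [(hk w w' x x' z v).1, one_mul])
  obtain ⟨K2, hK2, hax⟩ := leaf_axS l D
  -- the rescaled value
  set m : ∀ k, (L k).T.Ω → ℝ := fun k w => min b (1 - a k w) with hm
  have hm1 : ∀ᶠ k in UF, ∀ w, (L k).T.μ w ≠ 0 → m k w ≤ 1 := by
    filter_upwards [ha0] with k hk w hw
    exact (min_le_right _ _).trans (by linarith [(hk w hw).1])
  let y : (L.sp).VV 1 :=
    { v := fun k w _ => u k w * 2 ^ ((m k w - (C + 1)) * (S.F k).n)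
      bd := by
        refine ⟨fun _ => 1, (L.sp).Sub_const zero_le_one, ?_⟩
        filter_upwards [hub, hm1] with k h1 h2
        intro (w : (L k).T.Ω) (hw : (L k).T.μ w ≠ 0) _
        have hn := (S.F k).pos
        rw [abs_mul, abs_of_pos (by positivity : (0 : ℝ) < 2 ^ ((m k w - (C + 1)) * (S.F k).n))]
        have h3 : (2 : ℝ) ^ ((m k w - (C + 1)) * (S.F k).n) ≤ 2 ^ (-C * (S.F k).n) := by
          apply Real.rpow_le_rpow_of_exponent_le (by norm_num)
          apply mul_le_mul_of_nonneg_right _ hn.le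
          linarith [h2 w hw]
        refine (mul_le_mul (h1 w hw) h3 (by positivity) (by positivity)).trans ?_
        rw [← Real.rpow_add (by norm_num)]
        have e1 : C * (S.F k).n + -C * (S.F k).n = 0 := by ring
        rw [e1, Real.rpow_zero] }
  have hyv : ∀ k (w : (L k).T.Ω) (i : Fin 1), y.v k w i = u k w * 2 ^ ((m k w - (C + 1)) * (S.F k).n) := fun _ _ _ => rfl
  have hdl : ∀ (r : ℝ) k, (L.sp).dl r k = 2 ^ (-(r * (S.F k).n)) := by
    intro r k
    unfold Sp.dl
    rw [sp_n]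
  have key : PLe (S := L.sp) (fun k => fc (Setoid.ker (y.cellv (C + 1) k)))
      (fun k => fc (F := (L k).T) ((L k).V ⊓ Setoid.comap (L k).p.π (l.La k ⊓ Setoid.ker (l.Y.cellv b k)))) := by
    set Kt : ℕ → ℝ := fun k => K k + B * (Kp k + 1) ^ (D + 1) * K k with hKt
    have hKtS : S.Sub Kt := hK.add (((S.Sub_const (by linarith)).mul
      (Sub_pow' (hKp.add (S.Sub_const zero_le_one)) (D + 1))).mul hK)
    have hKs : S.Sub (fun k => 2 * Kt k + ((l.e : ℝ) * (K2 k * 2) + 4) * (K1 k * Kt k)) :=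
      ((S.Sub_const zero_le_two).mul hKtS).add ((((S.Sub_const (Nat.cast_nonneg _)).mul
        (hK2.mul (S.Sub_const zero_le_two))).add (S.Sub_const (by norm_num))).mul (hK1.mul hKtS))
    refine PLe_cell_typ (S := L.sp) y (C + 1)
      (fun k => (L k).V ⊓ Setoid.comap (L k).p.π (l.La k ⊓ Setoid.ker (l.Y.cellv b k))) _
      ((sp_Sub L).mpr hKs) ((h0.and h1).and (hu.and hT1)) ?_
    filter_upwards [hP, hpt, hax, l.eval_mem D, l.fn, hK.1, hKp.1, hK1.1, hK2.1, hD, ha0] with k g1 g2 g4 g5 g6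
      gK gKp gK1 gK2 gD ga
    intro (w : (L k).T.Ω) (w' : (L k).T.Ω) (hw : (L k).T.μ w ≠ 0) (hw' : (L k).T.μ w' ≠ 0) h1 h2
      (hZ : (L k).T.Z w w') hV i
    have hs := (L k).p.supp w hw
    have hs' := (L k).p.supp w' hw'
    obtain ⟨hPw, haw⟩ := g1 w w' hw hw' hZ hV.1
    have hF : l.F k ((L k).p.π w) = l.F k ((L k).p.π w') :=
      g6 _ _ hs hs' (((L k).p.hZ w w' hw hw').mp hZ) hV.2.1
    have hKt0 : 0 ≤ B * (Kp k + 1) ^ (D + 1) * K k :=
      mul_nonneg (mul_nonneg (by linarith) (pow_nonneg (by linarith) _)) gK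
    have hKtk : Kt k = K k + B * (Kp k + 1) ^ (D + 1) * K k := rfl
    -- near the point
    have hnear : ∀ v, (L k).T.μ v ≠ 0 → |MvPolynomial.eval (Q.v k ((L k).p.π v)) (P k v)| ≤ K k →
        (∀ x : Fin M → ℝ, (∀ i, |x i - Q.v k ((L k).p.π v) i| ≤ S.dl 1 k) →
          ∀ i, |MvPolynomial.eval x (MvPolynomial.pderiv i (P k v))| ≤ K k * 2 ^ (a k v * (S.F k).n)) →
        |MvPolynomial.eval (l.F k ((L k).p.π v) (l.Y.v k ((L k).p.π v))) (P k v) -
          MvPolynomial.eval (Q.v k ((L k).p.π v)) (P k v)| ≤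
            B * (Kp k + 1) ^ (D + 1) * K k * 2 ^ (-((1 - a k v) * (S.F k).n)) ∧
        |MvPolynomial.eval (l.F k ((L k).p.π v) (l.Y.v k ((L k).p.π v))) (P k v)| ≤ Kt k := by
      intro v hv hv0 hv1
      have c1 := g2 _ ((L k).p.supp v hv)
      have hn := (S.F k).pos
      have c3 := hB (P k v) (gD v hv) (Q.v k ((L k).p.π v)) (l.F k ((L k).p.π v) (l.Y.v k ((L k).p.π v)))
        (S.dl 1 k) (Kp k + 1) (K k * 2 ^ (a k v * (S.F k).n)) (S.dl_pos 1 k) (by linarith) (by positivity)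
        (fun i => by
          rw [abs_sub_comm]
          exact (c1 i).trans (mul_le_mul_of_nonneg_right (by linarith) (S.dl_pos 1 k).le)) hv1
      have e1 : S.dl 1 k * (K k * 2 ^ (a k v * (S.F k).n)) = K k * 2 ^ (-((1 - a k v) * (S.F k).n)) := by
        unfold Sp.dl
        rw [mul_left_comm, ← Real.rpow_add (by norm_num)]
        congr 2
        ring
      rw [e1, ← mul_assoc] at c3
      refine ⟨c3, ?_⟩
      have c4 : (2 : ℝ) ^ (-((1 - a k v) * (S.F k).n)) ≤ 1 := by
        apply Real.rpow_le_one_of_one_le_of_nonpos (by norm_num)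
        have := mul_nonneg (sub_nonneg.mpr (ga v hv).2) hn.le
        linarith
      have c5 := mul_le_of_le_one_right hKt0 c4
      have c6 := abs_sub_abs_le_abs_sub (MvPolynomial.eval (l.F k ((L k).p.π v) (l.Y.v k ((L k).p.π v))) (P k v))
        (MvPolynomial.eval (Q.v k ((L k).p.π v)) (P k v))
      linarith
    obtain ⟨n1, m1⟩ := hnear w hw h1.1.1 h1.1.2
    obtain ⟨n2, m2⟩ := hnear w' hw' h2.1.1 h2.1.2
    have hKt1 : 0 ≤ Kt k := (abs_nonneg _).trans m1
    -- the function on the leaf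
    have hmem := g5 _ hs (P k w) (gD w hw)
    have hAx := g4 _ hs _ hmem
    have hYb : ∀ i, |l.Y.v k ((L k).p.π w') i - l.Y.v k ((L k).p.π w) i| < S.dl b k := by
      intro i
      have c1 : ⌊l.Y.v k ((L k).p.π w) i / S.dl b k⌋ = ⌊l.Y.v k ((L k).p.π w') i / S.dl b k⌋ := congrFun hV.2.2 i
      have c2 := Int.abs_sub_lt_one_of_floor_eq_floor c1.symm
      rw [← sub_div, abs_div, abs_of_pos (S.dl_pos b k), div_lt_one (S.dl_pos b k)] at c2
      exact c2
    have hb1 : S.dl b k ≤ 1 := by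
      have := S.dl_anti hb0 k
      rwa [S.dl_zero] at this
    have hball : ∀ y : Fin l.e → ℝ, (∀ i, |y i - l.Y.v k ((L k).p.π w) i| < 1) →
        |MvPolynomial.eval (l.F k ((L k).p.π w) y) (P k w)| ≤ K1 k * Kt k := by
      intro y hy
      refine (h1.2.2 y (fun i => by rw [S.dl_zero]; exact hy i)).trans ?_
      exact mul_le_mul_of_nonneg_left m1 gK1
    have hosc : |MvPolynomial.eval (l.F k ((L k).p.π w) (l.Y.v k ((L k).p.π w'))) (P k w) -
        MvPolynomial.eval (l.F k ((L k).p.π w) (l.Y.v k ((L k).p.π w))) (P k w)| ≤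
        ((l.e : ℝ) * (K2 k * 2) + 4) * (K1 k * Kt k) * S.dl b k := by
      have hA0 : 0 ≤ K1 k * Kt k := mul_nonneg gK1 hKt1
      have hd0 := S.dl_pos b k
      rcases le_or_gt (2 * S.dl b k) 1 with c1 | c1
      · have c2 := hAx.bern (W := 1) (δ := S.dl b k) le_rfl hd0 c1 (K1 k * Kt k) hball
          (l.Y.v k ((L k).p.π w')) (fun i => (hYb i).le)
        refine c2.trans ?_
        have c3 : (l.e : ℝ) * (K2 k * (2 * S.dl b k / 1) * (K1 k * Kt k)) =
            ((l.e : ℝ) * (K2 k * 2)) * (K1 k * Kt k) * S.dl b k := by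
          rw [div_one]
          ring
        rw [c3]
        have c4 : 0 ≤ 4 * (K1 k * Kt k) * S.dl b k := by positivity
        nlinarith
      · have c2 := hball (l.Y.v k ((L k).p.π w')) (fun i => (hYb i).trans_le hb1)
        have c3 := hball (l.Y.v k ((L k).p.π w)) (fun i => by rw [sub_self, abs_zero]; exact one_pos)
        have c4 := abs_sub (MvPolynomial.eval (l.F k ((L k).p.π w) (l.Y.v k ((L k).p.π w'))) (P k w))
          (MvPolynomial.eval (l.F k ((L k).p.π w) (l.Y.v k ((L k).p.π w))) (P k w))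
        have c5 : 0 ≤ ((l.e : ℝ) * (K2 k * 2)) * (K1 k * Kt k) * S.dl b k := by positivity
        have c6 : 2 * (K1 k * Kt k) ≤ 4 * (K1 k * Kt k) * S.dl b k := by nlinarith
        nlinarith
    -- the levels
    have hn := (S.F k).pos
    have hmw : m k w = m k w' := by
      rw [hm]
      show min b (1 - a k w) = min b (1 - a k w')
      rw [haw]
    have hl1 : (2 : ℝ) ^ (-((1 - a k w) * (S.F k).n)) ≤ 2 ^ (-(m k w * (S.F k).n)) := by
      apply Real.rpow_le_rpow_of_exponent_le (by norm_num)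
      have := mul_le_mul_of_nonneg_right (min_le_right b (1 - a k w)) hn.le
      rw [hm]
      linarith
    have hl2 : S.dl b k ≤ 2 ^ (-(m k w * (S.F k).n)) := by
      unfold Sp.dl
      apply Real.rpow_le_rpow_of_exponent_le (by norm_num)
      have := mul_le_mul_of_nonneg_right (min_le_left b (1 - a k w)) hn.le
      rw [hm]
      linarith
    have u1 := h1.2.1
    have u2 := h2.2.1
    rw [← hPw, ← haw] at n2 u2
    rw [← hF] at n2
    have x1 : |u k w - u k w'| ≤ (2 * Kt k + ((l.e : ℝ) * (K2 k * 2) + 4) * (K1 k * Kt k)) *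
        2 ^ (-(m k w * (S.F k).n)) := by
      have b1 := abs_le.1 u1
      have b2 := abs_le.1 u2
      have b3 := abs_le.1 n1
      have b4 := abs_le.1 n2
      have b5 := abs_le.1 hosc
      have y1 := mul_le_mul_of_nonneg_left hl1 gK
      have y2 := mul_le_mul_of_nonneg_left hl1 hKt0
      have y3 : ((l.e : ℝ) * (K2 k * 2) + 4) * (K1 k * Kt k) * S.dl b k ≤
          ((l.e : ℝ) * (K2 k * 2) + 4) * (K1 k * Kt k) * 2 ^ (-(m k w * (S.F k).n)) :=
        mul_le_mul_of_nonneg_left hl2 (by positivity)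
      have y4 : (2 * Kt k + ((l.e : ℝ) * (K2 k * 2) + 4) * (K1 k * Kt k)) * 2 ^ (-(m k w * (S.F k).n)) =
          2 * (K k * 2 ^ (-(m k w * (S.F k).n))) +
            2 * (B * (Kp k + 1) ^ (D + 1) * K k * 2 ^ (-(m k w * (S.F k).n))) +
            ((l.e : ℝ) * (K2 k * 2) + 4) * (K1 k * Kt k) * 2 ^ (-(m k w * (S.F k).n)) := by
        rw [hKtk]
        ring
      rw [y4, abs_le]
      constructor <;> linarith [b1.1, b1.2, b2.1, b2.2, b3.1, b3.2, b4.1, b4.2, b5.1, b5.2]
    rw [hyv, hyv, ← hmw, ← sub_mul, abs_mul,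
      abs_of_pos (by positivity : (0 : ℝ) < 2 ^ ((m k w - (C + 1)) * (S.F k).n)), hdl]
    refine (mul_le_mul_of_nonneg_right x1 (by positivity)).trans (le_of_eq ?_)
    rw [mul_assoc, ← Real.rpow_add (by norm_num)]
    congr 2
    ring
  refine PLe.trans (S := L.sp) (PLe_of_le (S := L.sp) fun k => ?_) key
  apply fc_mono (F := (L.sp).F k)
  intro (w : (L k).T.Ω) (w' : (L k).T.Ω) hww
  have h3 : ⌊y.v k w 0 / (L.sp).dl (C + 1) k⌋ = ⌊y.v k w' 0 / (L.sp).dl (C + 1) k⌋ := congrFun hww 0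
  have e1 : ∀ w : (L k).T.Ω, y.v k w 0 / (L.sp).dl (C + 1) k = u k w / 2 ^ (-(m k w * (S.F k).n)) := by
    intro w
    rw [hyv, hdl, Real.rpow_neg (by norm_num), Real.rpow_neg (by norm_num), div_inv_eq_mul, div_inv_eq_mul, mul_assoc,
      ← Real.rpow_add (by norm_num)]
    congr 2
    ring
  rw [e1, e1] at h3
  exact h3

/-- LIPW, gradient form with pointwise levels, on extensions -/
theorem lipg_ext (p : Pj T S) (V : ∀ k, Setoid (T.F k).Ω)
    (hV : NI (fun k => fc (V k)) (fun k => (p.fp k).top) ((l.win 0).pull p)) {D : ℕ}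
    (P : ∀ k, (T.F k).Ω → MvPolynomial (Fin M) ℝ)
    (hD : ∀ᶠ k in UF, ∀ w, (T.F k).μ w ≠ 0 → (P k w).totalDegree ≤ D)
    (a : ∀ k, (T.F k).Ω → ℝ) (ha0 : ∀ᶠ k in UF, ∀ w, (T.F k).μ w ≠ 0 → 0 ≤ a k w ∧ a k w ≤ 1)
    (hP : ∀ᶠ k in UF, ∀ w w', (T.F k).μ w ≠ 0 → (T.F k).μ w' ≠ 0 → (T.F k).Z w w' → V k w w' →
      P k w = P k w' ∧ a k w = a k w')
    (h0 : ∀ η : ℝ, 0 < η → Typ (S := T) (fun k w =>
      |MvPolynomial.eval ((p.vv Q).v k w) (P k w)| ≤ 2 ^ (η * (T.F k).n)))
    (h1 : ∀ η : ℝ, 0 < η → Typ (S := T) (fun k w => ∀ x : Fin M → ℝ, (∀ i, |x i - (p.vv Q).v k w i| ≤ T.dl 1 k) →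
      ∀ i, |MvPolynomial.eval x (MvPolynomial.pderiv i (P k w))| ≤ 2 ^ ((a k w + η) * (T.F k).n)))
    (u : ∀ k, (T.F k).Ω → ℝ) {C : ℝ} (hub : ∀ᶠ k in UF, ∀ w, (T.F k).μ w ≠ 0 → |u k w| ≤ 2 ^ (C * (T.F k).n))
    (hu : ∀ η : ℝ, 0 < η → Typ (S := T) (fun k w => |u k w - MvPolynomial.eval ((p.vv Q).v k w) (P k w)| ≤
      2 ^ (-((1 - a k w - η) * (T.F k).n)))) {b : ℝ} (hb0 : 0 ≤ b) :
    PLe (fun k => fc (Setoid.ker fun w => ⌊u k w / 2 ^ (-(min b (1 - a k w) * (T.F k).n))⌋))
      (Pjn ((l.win b).pull p) (fun k => fc (V k))) := by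
  have e1 : ∀ r k, S.dl r k = T.dl r k := by
    intro r k
    unfold Sp.dl
    rw [p.hn k]
  have hsub : ∀ {K : ℕ → ℝ}, T.Sub K → S.Sub K := fun {K} h => (sp_Sub (labOf p V)).mp h
  have hV' : Nul S (fun k => (labOf p V k).leak (l.win 0 k)) := by
    have h0 : Nul T (fun k => (labOf p V k).leak (l.win 0 k)) := hV
    unfold Nul at h0 ⊢
    simp only [p.hn] at h0
    exact h0
  obtain ⟨s1, hs1, hs1p, hT1⟩ := typ_diag (S := T) (fun η k w =>
    |MvPolynomial.eval ((p.vv Q).v k w) (P k w)| ≤ 2 ^ (η * (T.F k).n)) h0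
  obtain ⟨s2, hs2, hs2p, hT2⟩ := typ_diag (S := T) (fun η k w => ∀ x : Fin M → ℝ,
    (∀ i, |x i - (p.vv Q).v k w i| ≤ T.dl 1 k) →
      ∀ i, |MvPolynomial.eval x (MvPolynomial.pderiv i (P k w))| ≤ 2 ^ ((a k w + η) * (T.F k).n)) h1
  obtain ⟨s3, hs3, hs3p, hT3⟩ := typ_diag (S := T) (fun η k w =>
    |u k w - MvPolynomial.eval ((p.vv Q).v k w) (P k w)| ≤ 2 ^ (-((1 - a k w - η) * (T.F k).n))) hu
  have hp : ∀ (e : ℕ → ℝ), Tendsto e UF (𝓝 0) → (∀ k, 0 < e k) → T.Sub (fun k => 2 ^ (e k * (T.F k).n)) :=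
    fun e h1 h2 => Sub_pow_two h1 (Eventually.of_forall fun k => (h2 k).le)
  set K : ℕ → ℝ := fun k => 2 ^ (s1 k * (T.F k).n) + 2 ^ (s2 k * (T.F k).n) + 2 ^ (s3 k * (T.F k).n) with hK
  have hKs : T.Sub K := ((hp s1 hs1 hs1p).add (hp s2 hs2 hs2p)).add (hp s3 hs3 hs3p)
  have q1 : ∀ k, (0 : ℝ) < 2 ^ (s1 k * (T.F k).n) := fun k => by positivity
  have q2 : ∀ k, (0 : ℝ) < 2 ^ (s2 k * (T.F k).n) := fun k => by positivity
  have q3 : ∀ k, (0 : ℝ) < 2 ^ (s3 k * (T.F k).n) := fun k => by positivity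
  have k1 : ∀ k, (2 : ℝ) ^ (s1 k * (T.F k).n) ≤ K k := fun k => by simp only [hK]; linarith [q2 k, q3 k]
  have k2 : ∀ k, (2 : ℝ) ^ (s2 k * (T.F k).n) ≤ K k := fun k => by simp only [hK]; linarith [q1 k, q3 k]
  have k3 : ∀ k, (2 : ℝ) ^ (s3 k * (T.F k).n) ≤ K k := fun k => by simp only [hK]; linarith [q1 k, q2 k]
  have hn : ∀ k, (S.F k).n = (T.F k).n := fun k => (p.hn k).symm
  have h2 := lipg l (labOf p V) hV' P hD a ha0 hP (hsub hKs)
    (hT1.mono (Eventually.of_forall fun k w _ hh => hh.trans (k1 k)))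
    (hT2.mono (Eventually.of_forall fun k w _ hh x hx i => by
      refine (hh x (fun i => by rw [← e1]; exact hx i) i).trans ?_
      rw [hn, add_mul, Real.rpow_add (by norm_num), mul_comm]
      exact mul_le_mul_of_nonneg_right (k2 k) (by positivity)))
    u (C := C) (by
      filter_upwards [hub] with k hk w hw
      rw [hn]
      exact hk w hw)
    (hT3.mono (Eventually.of_forall fun k w _ hh => by
      refine (show _ ≤ _ from hh).trans ?_
      have e2 : -((1 - a k w - s3 k) * (T.F k).n) = s3 k * (T.F k).n + -((1 - a k w) * (T.F k).n) := by ring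
      rw [e2, Real.rpow_add (by norm_num), hn]
      exact mul_le_mul_of_nonneg_right (k3 k) (by positivity))) hb0
  have e3 : (fun k => fc (F := (labOf p V k).T) (Setoid.ker fun w =>
      ⌊u k w / 2 ^ (-(min b (1 - a k w) * (S.F k).n))⌋)) =
      fun k => fc (Setoid.ker fun w => ⌊u k w / 2 ^ (-(min b (1 - a k w) * (T.F k).n))⌋) := by
    funext k
    rw [hn]
    rfl
  rw [e3] at h2
  refine h2.trans (PLe_of_le fun k => ?_)
  have e2 : fc ((labOf p V k).V ⊓ Setoid.comap (labOf p V k).p.π (l.La k ⊓ Setoid.ker (l.Y.cellv b k))) =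
      fc (V k) ⊔ (l.win b).pull p k := rfl
  exact (le_of_eq (e2.trans (sup_comm _ _)))

/-- partitions by the values of finitely many functions -/
theorem PLe_vec {q : ℕ} {β : Type} (f : ∀ k, (T.F k).Ω → Fin q → β) (B : Part T)
    (h : ∀ j, PLe (fun k => fc (Setoid.ker fun w => f k w j)) B) : PLe (fun k => fc (Setoid.ker (f k))) B := by
  classical
  have key : ∀ s : Finset (Fin q), PLe (fun k => fc (Setoid.ker fun w (j : s) => f k w j)) B := by
    intro s
    induction s using Finset.induction_on with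
    | empty =>
      refine PLe.trans (PLe_of_le fun k => ?_) ((PLe.refl B).trans (PLe.refl B))
      refine le_trans (b := fc (F := T.F k) ⊤) (fc_mono (F := T.F k) ?_) ?_
      · intro w w' _
        funext j
        exact absurd j.2 (Finset.notMem_empty _)
      · rw [show fc (F := T.F k) (⊤ : Setoid (T.F k).Ω) = ⊥ from fc_top]
        exact bot_le
    | insert j s hj ih =>
      refine PLe.trans (PLe_of_le fun k => ?_) ((ih.sup_le (h j)).trans (PLe.refl B))
      rw [← fc_inf]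
      apply fc_mono (F := T.F k)
      intro w w' hw
      funext i
      rcases Finset.mem_insert.1 i.2 with h1 | h1
      · have h2 : f k w j = f k w' j := hw.2
        show f k w i = f k w' i
        rw [h1]
        exact h2
      · exact congrFun hw.1 ⟨i, h1⟩
  refine PLe.trans (PLe_of_le fun k => ?_) (key Finset.univ)
  apply fc_mono (F := T.F k)
  intro w w' hw
  funext j
  exact congrFun hw ⟨j, Finset.mem_univ j⟩

/-- LIPW for finitely many rows with pointwise levels (the rows of the adapted leaf) -/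
theorem lipg_rows (p : Pj T S) (V : ∀ k, Setoid (T.F k).Ω)
    (hV : NI (fun k => fc (V k)) (fun k => (p.fp k).top) ((l.win 0).pull p)) {D q : ℕ}
    (P : ∀ k, (T.F k).Ω → Fin q → MvPolynomial (Fin M) ℝ)
    (hD : ∀ᶠ k in UF, ∀ w, (T.F k).μ w ≠ 0 → ∀ j, (P k w j).totalDegree ≤ D)
    (a : ∀ k, (T.F k).Ω → Fin q → ℝ) (ha0 : ∀ᶠ k in UF, ∀ w, (T.F k).μ w ≠ 0 → ∀ j, 0 ≤ a k w j ∧ a k w j ≤ 1)
    (hP : ∀ᶠ k in UF, ∀ w w', (T.F k).μ w ≠ 0 → (T.F k).μ w' ≠ 0 → (T.F k).Z w w' → V k w w' → P k w = P k w')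
    (ha : ∀ᶠ k in UF, ∀ w w', (T.F k).μ w ≠ 0 → (T.F k).μ w' ≠ 0 → (T.F k).Z w w' → V k w w' → a k w = a k w')
    (h0 : ∀ η : ℝ, 0 < η → Typ (S := T) (fun k w => ∀ j,
      |MvPolynomial.eval ((p.vv Q).v k w) (P k w j)| ≤ 2 ^ (η * (T.F k).n)))
    (h1 : ∀ η : ℝ, 0 < η → Typ (S := T) (fun k w => ∀ x : Fin M → ℝ, (∀ i, |x i - (p.vv Q).v k w i| ≤ T.dl 1 k) →
      ∀ j i, |MvPolynomial.eval x (MvPolynomial.pderiv i (P k w j))| ≤ 2 ^ ((a k w j + η) * (T.F k).n)))
    (U : T.VV q) (hU : Typ (S := T) (fun k w => ∀ j, U.v k w j = MvPolynomial.eval ((p.vv Q).v k w) (P k w j)))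
    {b : ℝ} (hb0 : 0 ≤ b) :
    PLe (fun k => fc (Setoid.ker fun w j => ⌊U.v k w j / 2 ^ (-(min b (1 - a k w j) * (T.F k).n))⌋))
      (Pjn ((l.win b).pull p) (fun k => fc (V k))) := by
  refine PLe_vec (fun k w j => ⌊U.v k w j / 2 ^ (-(min b (1 - a k w j) * (T.F k).n))⌋) _ fun j => ?_
  obtain ⟨K, hK, hUb⟩ := U.bd
  refine lipg_ext l p V hV (D := D) (fun k w => P k w j) (by
      filter_upwards [hD] with k hk w hw using hk w hw j) (fun k w => a k w j) (by
      filter_upwards [ha0] with k hk w hw using hk w hw j) (by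
      filter_upwards [hP, ha] with k h2 h3 w w' x x' z v
      exact ⟨congrFun (h2 w w' x x' z v) j, congrFun (h3 w w' x x' z v) j⟩)
    (fun η hη => (h0 η hη).mono (Eventually.of_forall fun k w _ hh => hh j))
    (fun η hη => (h1 η hη).mono (Eventually.of_forall fun k w _ hh x hx i => hh x hx j i))
    (fun k w => U.v k w j) (C := 1) ?_ (fun η hη => hU.mono (Eventually.of_forall fun k w _ hh => ?_)) hb0
  · filter_upwards [hUb, hK.eventually_le one_pos] with k h2 h3 w hw
    exact (h2 w hw j).trans (by linarith)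
  · rw [hh j, sub_self, abs_zero]
    positivity

end

end

end Pool.Agent.Helper82.LPW
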