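import Pool.Agent.Helper77.ONE.One
import Pool.Agent.Helper38.NSL.Ni

/-! LIPSCHITZ WINDOWS (LIPW). A polynomial `P`, known to a label `V` without leak at the window `0` of a leaf, which is
tame on the ball of radius `2 ^ (-a n)` about the point: the digits of its value at the point, up to the level
`min b (1 - a)`, are known to the label and to the window `b` of the leaf. -/

set_option autoImplicit false

namespace Pool.Agent.Helper82.LPW

open Finset Filter Topology Pool.Agent.Helper69.RK Pool.Agent.Helper31.EC Pool.Agent.Helper31.EC.Sp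
open Pool.Agent.Helper40.EL Pool.Agent.Helper89.LX Pool.Agent.Helper3.LF Pool.Agent.Helper84.MT
open Pool.Agent.Helper7.GZ Pool.Agent.Helper38.NSL

noncomputable section

variable {S T : Sp} {M : ℕ} {E : ℕ → ℕ}

/-- BERNSTEIN for polynomials of degree at most `D`, tame on a ball -/
theorem pol_near (D M : ℕ) : ∃ B : ℝ, 1 ≤ B ∧ ∀ P : MvPolynomial (Fin M) ℝ, P.totalDegree ≤ D →
    ∀ (x y : Fin M → ℝ) (ρ t A : ℝ), 0 ≤ t → t ≤ 1 → (∀ i, |y i - x i| ≤ t * ρ) →
      (∀ z, (∀ i, |z i - x i| ≤ ρ) → |MvPolynomial.eval z P| ≤ A) →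
        |MvPolynomial.eval y P - MvPolynomial.eval x P| ≤ B * t * A := by
  obtain ⟨B, hB1, hB⟩ := seg_mv D M
  refine ⟨B, hB1, fun P hP x y ρ t A ht0 ht1 hxy hA => ?_⟩
  rcases ht0.eq_or_lt with rfl | ht
  · have e1 : y = x := by
      funext i
      have h1 := hxy i
      rw [zero_mul] at h1
      have h2 := abs_nonpos_iff.1 h1
      linarith
    rw [e1, sub_self, abs_zero, mul_zero, zero_mul]
  · have h1 := (hB P hP x (fun i => x i + t⁻¹ * (y i - x i))).2 A (by
      intro u hu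
      apply hA
      intro i
      have e1 : x i + u * (x i + t⁻¹ * (y i - x i) - x i) - x i = u * (t⁻¹ * (y i - x i)) := by ring
      rw [e1, abs_mul, abs_mul, abs_of_nonneg hu.1, abs_of_pos (inv_pos.2 ht)]
      have h2 : t⁻¹ * |y i - x i| ≤ ρ := by
        have h3 := mul_le_mul_of_nonneg_left (hxy i) (inv_pos.2 ht).le
        rwa [← mul_assoc, inv_mul_cancel₀ ht.ne', one_mul] at h3
      have h4 : 0 ≤ t⁻¹ * |y i - x i| := mul_nonneg (inv_pos.2 ht).le (abs_nonneg _)
      exact (mul_le_of_le_one_left h4 hu.2).trans h2) t ⟨ht0, ht1⟩ 0 ⟨le_rfl, zero_le_one⟩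
    have e2 : (fun j => x j + t * (x j + t⁻¹ * (y j - x j) - x j)) = y := by
      funext j
      have e3 : x j + t * (x j + t⁻¹ * (y j - x j) - x j) = x j + (t * t⁻¹) * (y j - x j) := by ring
      rw [e3, mul_inv_cancel₀ ht.ne']
      ring
    have e4 : (fun j => x j + 0 * (x j + t⁻¹ * (y j - x j) - x j)) = x := by
      funext j
      ring
    simp only [e2, e4, sub_zero, abs_of_pos ht] at h1
    exact h1

section
variable {Q : S.VV M} (l : Leaf S Q E)

/-- LIPW, for labels -/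
theorem lipw (L : Lab S) (hL : Nul S (fun k => (L k).leak (l.win 0 k))) {D : ℕ}
    (P : ∀ k, (L k).T.Ω → MvPolynomial (Fin M) ℝ) (hD : ∀ k w, (P k w).totalDegree ≤ D)
    (hP : ∀ᶠ k in UF, ∀ w w', (L k).T.μ w ≠ 0 → (L k).T.μ w' ≠ 0 → (L k).T.Z w w' → (L k).V w w' →
      P k w = P k w') {a : ℝ} (ha1 : a ≤ 1) {K : ℕ → ℝ} (hK : S.Sub K)
    (hT : Typ (S := L.sp) (fun k w => ∀ x : Fin M → ℝ, (∀ i, |x i - Q.v k ((L k).p.π w) i| ≤ S.dl a k) →
      |MvPolynomial.eval x (P k w)| ≤ K k))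
    (u : (L.sp).VV 1) {K' : ℕ → ℝ} (hK' : S.Sub K')
    (hu : Typ (S := L.sp) (fun k w => |u.v k w 0 - MvPolynomial.eval (Q.v k ((L k).p.π w)) (P k w)| ≤
      K' k * S.dl (1 - a) k)) {b : ℝ} (hb0 : 0 ≤ b) :
    PLe (S := L.sp) (fun k => fc (Setoid.ker (u.cellv (min b (1 - a)) k)))
      (fun k => fc (F := (L k).T) ((L k).V ⊓ Setoid.comap (L k).p.π (l.La k ⊓ Setoid.ker (l.Y.cellv b k)))) := by
  classical
  obtain ⟨B, hB1, hB⟩ := pol_near D M
  obtain ⟨Kp, hKp, hpt⟩ := l.pt
  obtain ⟨K1, hK1, hT1⟩ := typ_pol l (c := 0) le_rfl one_pos L hL (D := D)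
    (fun k w x => MvPolynomial.eval x (P k w)) (Eventually.of_forall fun k w _ => ⟨P k w, by
      rw [one_mul]
      exact hD k w, rfl⟩) (κ := fun _ => 1) (S.Sub_const zero_le_one) (by
      filter_upwards [hP] with k hk w w' x x' z v _ _ p
      rw [hk w w' x x' z v, one_mul])
  obtain ⟨K2, hK2, hax⟩ := leaf_axS l D
  have hK0 := (sp_Sub L).mpr hK
  rcases lt_or_ge (1 - a) (0 : ℝ) with h1a | h1a
  · linarith
  rcases h1a.eq_or_lt with h1a | h1a
  · -- tame value
    have e1 : min b (1 - a) = 0 := by rw [← h1a]; exact min_eq_right hb0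
    rw [e1]
    refine PLe_cell_typ (S := L.sp) u 0 (fun k => (L k).V ⊓ Setoid.comap (L k).p.π (l.La k ⊓ Setoid.ker (l.Y.cellv b k)))
      (fun k => 2 * (K k + K' k)) ((sp_Sub L).mpr ((S.Sub_const zero_le_two).mul (hK.add hK'))) (hT.and hu) ?_
    refine Eventually.of_forall fun k w w' _ _ h1 h2 _ _ i => ?_
    have e2 : i = 0 := Subsingleton.elim _ _
    subst e2
    have a1 := h1.1 (Q.v k ((L k).p.π w)) (fun i => by rw [sub_self, abs_zero]; exact (S.dl_pos _ _).le)
    have a2 := h2.1 (Q.v k ((L k).p.π w')) (fun i => by rw [sub_self, abs_zero]; exact (S.dl_pos _ _).le)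
    have a3 := h1.2
    have a4 := h2.2
    rw [← h1a, S.dl_zero, mul_one] at a3 a4
    rw [(L.sp).dl_zero, mul_one]
    have b1 := abs_le.1 a1
    have b2 := abs_le.1 a2
    have b3 := abs_le.1 a3
    have b4 := abs_le.1 a4
    rw [abs_le]
    constructor <;> linarith [b1.1, b1.2, b2.1, b2.2, b3.1, b3.2, b4.1, b4.2]
  · -- the point of the chart is in the ball
    have hsm : ∀ᶠ k in UF, (Kp k + 1) * S.dl (1 - a) k ≤ 1 := by
      filter_upwards [(hKp.add (S.Sub_const zero_le_one)).eventually_le h1a] with k hk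
      have h2 : S.dl (1 - a) k = (2 ^ ((1 - a) * (S.F k).n))⁻¹ := by
        unfold Sp.dl
        rw [Real.rpow_neg (by norm_num)]
      rw [h2, ← div_eq_mul_inv, div_le_one (by positivity)]
      linarith
    have hKs : S.Sub (fun k => K' k * 2 + 2 * (B * (Kp k + 1) * K k) + ((l.e : ℝ) * (K2 k * 2) + 4) * (K1 k * K k)) := by
      refine ((hK'.mul (S.Sub_const zero_le_two)).add ((S.Sub_const zero_le_two).mul
        (((S.Sub_const (by linarith)).mul (hKp.add (S.Sub_const zero_le_one))).mul hK))).add ?_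
      exact (((S.Sub_const (Nat.cast_nonneg _)).mul (hK2.mul (S.Sub_const zero_le_two))).add
        (S.Sub_const (by norm_num))).mul (hK1.mul hK)
    refine PLe_cell_typ (S := L.sp) u (min b (1 - a))
      (fun k => (L k).V ⊓ Setoid.comap (L k).p.π (l.La k ⊓ Setoid.ker (l.Y.cellv b k))) _
      ((sp_Sub L).mpr hKs) ((hT.and hu).and hT1) ?_
    filter_upwards [hP, hpt, hsm, hax, l.eval_mem D, l.fn, hK.1, hK'.1, hKp.1, hK1.1, hK2.1] with k g1 g2 g3 g4 g5 g6
      gK gK' gKp gK1 gK2 w w' hw hw' h1 h2 hZ hV i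
    have e0 : i = 0 := Subsingleton.elim _ _
    subst e0
    have hs := (L k).p.supp w hw
    have hs' := (L k).p.supp w' hw'
    have hPw : P k w = P k w' := g1 w w' hw hw' hZ hV.1
    have hF : l.F k ((L k).p.π w) = l.F k ((L k).p.π w') :=
      g6 _ _ hs hs' (((L k).p.hZ w w' hw hw').mp hZ) hV.2.1
    have hda := S.dl_pos a k
    -- near the point
    have hnear : ∀ v, (L k).T.μ v ≠ 0 → (∀ x : Fin M → ℝ, (∀ i, |x i - Q.v k ((L k).p.π v) i| ≤ S.dl a k) →
        |MvPolynomial.eval x (P k v)| ≤ K k) →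
        |MvPolynomial.eval (l.F k ((L k).p.π v) (l.Y.v k ((L k).p.π v))) (P k v) -
          MvPolynomial.eval (Q.v k ((L k).p.π v)) (P k v)| ≤ B * (Kp k + 1) * K k * S.dl (1 - a) k ∧
        |MvPolynomial.eval (l.F k ((L k).p.π v) (l.Y.v k ((L k).p.π v))) (P k v)| ≤ K k := by
      intro v hv hTv
      have c1 := g2 _ ((L k).p.supp v hv)
      have c2 : ∀ i, |l.F k ((L k).p.π v) (l.Y.v k ((L k).p.π v)) i - Q.v k ((L k).p.π v) i| ≤
          (Kp k + 1) * S.dl (1 - a) k * S.dl a k := by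
        intro i
        rw [abs_sub_comm]
        refine (c1 i).trans ?_
        have e1 : S.dl (1 - a) k * S.dl a k = S.dl 1 k := by
          rw [← S.dl_add]
          congr 1
          ring
        rw [mul_assoc, e1]
        exact mul_le_mul_of_nonneg_right (by linarith) (S.dl_pos 1 k).le
      constructor
      · have c3 := hB (P k v) (hD k v) (Q.v k ((L k).p.π v)) _ (S.dl a k) ((Kp k + 1) * S.dl (1 - a) k) (K k)
          (mul_nonneg (by linarith) (S.dl_pos _ _).le) g3 c2 hTv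
        refine c3.trans (le_of_eq ?_)
        ring
      · apply hTv
        intro i
        refine (c2 i).trans ?_
        exact mul_le_of_le_one_left hda.le g3
    obtain ⟨n1, m1⟩ := hnear w hw h1.1.1
    obtain ⟨n2, m2⟩ := hnear w' hw' h2.1.1
    -- the function on the leaf
    have hmem := g5 _ hs (P k w) (hD k w)
    have hAx := g4 _ hs _ hmem
    have hYb : ∀ i, |l.Y.v k ((L k).p.π w') i - l.Y.v k ((L k).p.π w) i| < S.dl b k := by
      intro i
      have c1 : ⌊l.Y.v k ((L k).p.π w) i / S.dl b k⌋ = ⌊l.Y.v k ((L k).p.π w') i / S.dl b k⌋ := congrFun hV.2.2 i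
      have c2 := Int.abs_sub_lt_one_of_floor_eq_floor c1.symm
      rw [← sub_div, abs_div, abs_of_pos (S.dl_pos b k), div_lt_one (S.dl_pos b k)] at c2
      exact c2
    have hb1 : S.dl b k ≤ 1 := by
      have := S.dl_anti hb0 k
      rwa [S.dl_zero] at this
    have hball : ∀ y : Fin l.e → ℝ, (∀ i, |y i - l.Y.v k ((L k).p.π w) i| < 1) →
        |MvPolynomial.eval (l.F k ((L k).p.π w) y) (P k w)| ≤ K1 k * K k := by
      intro y hy
      refine (h1.2 y (fun i => by rw [S.dl_zero]; exact hy i)).trans ?_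
      exact mul_le_mul_of_nonneg_left m1 gK1
    have hosc : |MvPolynomial.eval (l.F k ((L k).p.π w) (l.Y.v k ((L k).p.π w'))) (P k w) -
        MvPolynomial.eval (l.F k ((L k).p.π w) (l.Y.v k ((L k).p.π w))) (P k w)| ≤
        ((l.e : ℝ) * (K2 k * 2) + 4) * (K1 k * K k) * S.dl b k := by
      have hA0 : 0 ≤ K1 k * K k := mul_nonneg gK1 gK
      have hd0 := S.dl_pos b k
      rcases le_or_gt (2 * S.dl b k) 1 with c1 | c1
      · have c2 := hAx.bern (W := 1) (δ := S.dl b k) le_rfl hd0 c1 (K1 k * K k) hball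
          (l.Y.v k ((L k).p.π w')) (fun i => (hYb i).le)
        refine c2.trans ?_
        have c3 : (l.e : ℝ) * (K2 k * (2 * S.dl b k / 1) * (K1 k * K k)) =
            ((l.e : ℝ) * (K2 k * 2)) * (K1 k * K k) * S.dl b k := by
          rw [div_one]
          ring
        rw [c3]
        have c4 : 0 ≤ 4 * (K1 k * K k) * S.dl b k := by positivity
        nlinarith
      · have c2 := hball (l.Y.v k ((L k).p.π w')) (fun i => (hYb i).trans_le hb1)
        have c3 := hball (l.Y.v k ((L k).p.π w)) (fun i => by rw [sub_self, abs_zero]; exact one_pos)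
        have c4 := abs_sub (MvPolynomial.eval (l.F k ((L k).p.π w) (l.Y.v k ((L k).p.π w'))) (P k w))
          (MvPolynomial.eval (l.F k ((L k).p.π w) (l.Y.v k ((L k).p.π w))) (P k w))
        have c5 : 0 ≤ ((l.e : ℝ) * (K2 k * 2)) * (K1 k * K k) * S.dl b k := by positivity
        have c6 : 2 * (K1 k * K k) ≤ 4 * (K1 k * K k) * S.dl b k := by nlinarith
        nlinarith
    -- the levels
    have hm1 : S.dl (1 - a) k ≤ S.dl (min b (1 - a)) k := S.dl_anti (min_le_right _ _) k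
    have hm2 : S.dl b k ≤ S.dl (min b (1 - a)) k := S.dl_anti (min_le_left _ _) k
    have u1 := h1.1.2
    have u2 := h2.1.2
    rw [← hPw] at n2 u2
    rw [← hF] at n2
    have x1 : |u.v k w 0 - u.v k w' 0| ≤ K' k * S.dl (1 - a) k + K' k * S.dl (1 - a) k +
        (B * (Kp k + 1) * K k * S.dl (1 - a) k + B * (Kp k + 1) * K k * S.dl (1 - a) k) +
        ((l.e : ℝ) * (K2 k * 2) + 4) * (K1 k * K k) * S.dl b k := by
      have b1 := abs_le.1 u1
      have b2 := abs_le.1 u2
      have b3 := abs_le.1 n1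
      have b4 := abs_le.1 n2
      have b5 := abs_le.1 hosc
      rw [abs_le]
      constructor <;> linarith [b1.1, b1.2, b2.1, b2.2, b3.1, b3.2, b4.1, b4.2, b5.1, b5.2]
    refine x1.trans ?_
    have y1 : K' k * S.dl (1 - a) k ≤ K' k * S.dl (min b (1 - a)) k := mul_le_mul_of_nonneg_left hm1 gK'
    have y2 : B * (Kp k + 1) * K k * S.dl (1 - a) k ≤ B * (Kp k + 1) * K k * S.dl (min b (1 - a)) k :=
      mul_le_mul_of_nonneg_left hm1 (mul_nonneg (mul_nonneg (by linarith) (by linarith)) gK)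
    have y3 : ((l.e : ℝ) * (K2 k * 2) + 4) * (K1 k * K k) * S.dl b k ≤
        ((l.e : ℝ) * (K2 k * 2) + 4) * (K1 k * K k) * S.dl (min b (1 - a)) k :=
      mul_le_mul_of_nonneg_left hm2 (by positivity)
    have e3 : (L.sp).dl (min b (1 - a)) k = S.dl (min b (1 - a)) k := by
      unfold Sp.dl
      rw [sp_n]
    rw [e3]
    nlinarith

/-- an extension with a partition as a label -/
def labOf (p : Pj T S) (V : ∀ k, Setoid (T.F k).Ω) : Lab S := fun k => ⟨T.F k, p.fp k, p.hn k, V k⟩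

/-- LIPW, on extensions -/
theorem lipw_ext (p : Pj T S) (V : ∀ k, Setoid (T.F k).Ω)
    (hV : NI (fun k => fc (V k)) (fun k => (p.fp k).top) ((l.win 0).pull p)) {D : ℕ}
    (P : ∀ k, (T.F k).Ω → MvPolynomial (Fin M) ℝ) (hD : ∀ k w, (P k w).totalDegree ≤ D)
    (hP : ∀ᶠ k in UF, ∀ w w', (T.F k).μ w ≠ 0 → (T.F k).μ w' ≠ 0 → (T.F k).Z w w' → V k w w' → P k w = P k w')
    {a : ℝ} (ha1 : a ≤ 1) {K : ℕ → ℝ} (hK : T.Sub K)
    (hT : Typ (S := T) (fun k w => ∀ x : Fin M → ℝ, (∀ i, |x i - (p.vv Q).v k w i| ≤ T.dl a k) →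
      |MvPolynomial.eval x (P k w)| ≤ K k))
    (u : T.VV 1) {K' : ℕ → ℝ} (hK' : T.Sub K')
    (hu : Typ (S := T) (fun k w => |u.v k w 0 - MvPolynomial.eval ((p.vv Q).v k w) (P k w)| ≤ K' k * T.dl (1 - a) k))
    {b : ℝ} (hb0 : 0 ≤ b) :
    PLe (fun k => fc (Setoid.ker (u.cellv (min b (1 - a)) k))) (Pjn ((l.win b).pull p) (fun k => fc (V k))) := by
  have e1 : ∀ r k, S.dl r k = T.dl r k := by
    intro r k
    unfold Sp.dl
    rw [p.hn k]
  have hsub : ∀ {K : ℕ → ℝ}, T.Sub K → S.Sub K := fun {K} h => (sp_Sub (labOf p V)).mp h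
  have hV' : Nul S (fun k => (labOf p V k).leak (l.win 0 k)) := by
    have h0 : Nul T (fun k => (labOf p V k).leak (l.win 0 k)) := hV
    unfold Nul at h0 ⊢
    simp only [p.hn] at h0
    exact h0
  have h1 := lipw l (labOf p V) hV' P hD hP ha1 (hsub hK) (hT.mono (Eventually.of_forall fun k w _ hh x hx =>
    hh x fun i => by rw [← e1]; exact hx i)) u (hsub hK') (hu.mono (Eventually.of_forall fun k w _ hh => by
      rw [e1]
      exact hh)) hb0
  refine h1.trans (PLe_of_le fun k => ?_)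
  have e2 : fc ((labOf p V k).V ⊓ Setoid.comap (labOf p V k).p.π (l.La k ⊓ Setoid.ker (l.Y.cellv b k))) =
      fc (V k) ⊔ (l.win b).pull p k := rfl
  exact (le_of_eq (e2.trans (sup_comm _ _)))

end

end

end Pool.Agent.Helper82.LPW
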